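import Pool.Agent.N929.AP.Stm

/-!
# Project AP (helper929): the counting inequality of the pattern theorem (AP/CNT), by helper744
-/

set_option autoImplicit false

namespace Pool.Agent.N744.AP

open Finset Pool.Agent.N789.Kl Pool.Agent.N929.AP
open scoped Classical

lemma mem_ring {v w : Cell} : w ∈ ring v ↔
    w ≠ v ∧ (v.1 - 1 ≤ w.1 ∧ w.1 ≤ v.1 + 1) ∧ (v.2 - 1 ≤ w.2 ∧ w.2 ≤ v.2 + 1) := by
  unfold ring
  rw [mem_erase, mem_product, mem_Icc, mem_Icc]

lemma mem_blk {u w : Cell} : w ∈ blk u ↔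
    (5 * u.1 - 2 ≤ w.1 ∧ w.1 ≤ 5 * u.1 + 2) ∧ (5 * u.2 - 2 ≤ w.2 ∧ w.2 ≤ 5 * u.2 + 2) := by
  unfold blk
  rw [mem_product, mem_Icc, mem_Icc]

lemma card_blk (u : Cell) : (blk u).card = 25 := by
  unfold blk
  rw [card_product, Int.card_Icc, Int.card_Icc]
  have h1 : (5 * u.1 + 2 + 1 - (5 * u.1 - 2)).toNat = 5 := by omega
  have h2 : (5 * u.2 + 2 + 1 - (5 * u.2 - 2)).toNat = 5 := by omega
  rw [h1, h2]

lemma ctr_mem (u : Cell) : ctr u ∈ blk u := by
  rw [mem_blk]
  unfold ctr
  simp only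
  omega

lemma ctr_inj : Function.Injective ctr := by
  intro u v h
  unfold ctr at h
  rw [Prod.mk.injEq] at h
  exact Prod.ext (by omega) (by omega)

lemma mem_BB {Q : Finset Cell} {v : Cell} : v ∈ BB Q ↔ v ∈ Q ∧ ring v ⊆ Q := by
  unfold BB
  rw [mem_filter]

lemma mem_SS {Q : Finset Cell} {v : Cell} : v ∈ SS Q ↔ v ∉ Q ∧ ring v ⊆ Q := by
  unfold SS
  rw [mem_filter, mem_image]
  constructor
  · exact fun h => h.2
  · intro h
    refine ⟨⟨(v.1 + 1, v.2), h.2 (mem_ring.2 ⟨?_, ⟨?_, ?_⟩, ?_, ?_⟩), ?_⟩, h⟩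
    · intro h0
      have := congrArg Prod.fst h0
      simp at this
    · show v.1 - 1 ≤ v.1 + 1
      omega
    · exact le_refl _
    · show v.2 - 1 ≤ v.2
      omega
    · show v.2 ≤ v.2 + 1
      omega
    · exact Prod.ext (by simp) rfl

/-- a larger block -/
noncomputable def nb (u : Cell) : Finset Cell :=
  (Icc (5 * u.1 - 3) (5 * u.1 + 3)) ×ˢ (Icc (5 * u.2 - 3) (5 * u.2 + 3))

lemma mem_nb {u w : Cell} : w ∈ nb u ↔
    (5 * u.1 - 3 ≤ w.1 ∧ w.1 ≤ 5 * u.1 + 3) ∧ (5 * u.2 - 3 ≤ w.2 ∧ w.2 ≤ 5 * u.2 + 3) := by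
  unfold nb
  rw [mem_product, mem_Icc, mem_Icc]

lemma card_nb (u : Cell) : (nb u).card = 49 := by
  unfold nb
  rw [card_product, Int.card_Icc, Int.card_Icc]
  have h1 : (5 * u.1 + 3 + 1 - (5 * u.1 - 3)).toNat = 7 := by omega
  have h2 : (5 * u.2 + 3 + 1 - (5 * u.2 - 3)).toNat = 7 := by omega
  rw [h1, h2]

/-- the block around a point -/
noncomputable def bat (c : Cell) : Finset Cell :=
  (Icc (c.1 - 3) (c.1 + 1)) ×ˢ (Icc (c.2 - 3) (c.2 + 1))

lemma bat_ctr (u : Cell) : bat (ctr u) = blk u := by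
  ext w
  rw [mem_blk]
  unfold bat ctr
  rw [mem_product, mem_Icc, mem_Icc]
  constructor
  · rintro ⟨⟨h1, h2⟩, h3, h4⟩
    simp only at h1 h2 h3 h4
    exact ⟨⟨by omega, by omega⟩, by omega, by omega⟩
  · rintro ⟨⟨h1, h2⟩, h3, h4⟩
    simp only
    exact ⟨⟨by omega, by omega⟩, by omega, by omega⟩

lemma card_bat (c : Cell) : (bat c).card = 25 := by
  unfold bat
  rw [card_product, Int.card_Icc, Int.card_Icc]
  have h1 : (c.1 + 1 + 1 - (c.1 - 3)).toNat = 5 := by omega
  have h2 : (c.2 + 1 + 1 - (c.2 - 3)).toNat = 5 := by omega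
  rw [h1, h2]

lemma biUnion_bat (T : Finset Cell) : (T.image ctr).biUnion bat = T.biUnion blk := by
  rw [image_biUnion]
  exact biUnion_congr rfl fun u _ => bat_ctr u

/-- the general counting lemma -/
lemma cnt_gen (X : Finset Cell → Finset Cell) (f : Finset Cell → Finset Cell → Finset Cell)
    (h1 : ∀ n P T, P ∈ A0 n → T ⊆ hit P → f P T ∈ A0 (f P T).card ∧
      (f P T).card ≤ n + 25 * T.card)
    (h2 : ∀ P T, T.image ctr ⊆ X (f P T))
    (h3 : ∀ P T, (X (f P T)).card ≤ (X P).card + 49 * T.card)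
    (h4 : ∀ P T v, v ∉ T.biUnion blk → (v ∈ f P T ↔ v ∈ P)) (M n t : ℕ) (hM : 1 ≤ M) :
    ∑ P ∈ (A0 n).filter (fun P => M * (X P).card ≤ n), (hit P).card.choose t ≤
      2 ^ (n / M + 74 * t) * ∑ m ∈ range (n + 25 * t + 1), a m := by
  let src : Finset ((_ : Finset Cell) × Finset Cell) :=
    ((A0 n).filter (fun P => M * (X P).card ≤ n)).sigma (fun P => (hit P).powersetCard t)
  have e1 : ∑ P ∈ (A0 n).filter (fun P => M * (X P).card ≤ n), (hit P).card.choose t =
      src.card := by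
    rw [card_sigma]
    exact sum_congr rfl fun P _ => (card_powersetCard _ _).symm
  let QQ : Finset (Finset Cell) :=
    ((range (n + 25 * t + 1)).biUnion A0).filter (fun Q => (X Q).card ≤ n / M + 49 * t)
  let tgt : Finset (Finset Cell × Finset Cell × Finset Cell) :=
    QQ.biUnion fun Q => ((X Q).powersetCard t).biUnion fun E =>
      ((E.biUnion bat).powerset).image fun G => (Q, E, G)
  have e2 : src.card ≤ tgt.card := by
    apply card_le_card_of_injOn
      (fun z => (f z.1 z.2, z.2.image ctr, z.1 ∩ z.2.biUnion blk))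
    · rintro ⟨P, T⟩ hz
      rw [mem_coe, mem_sigma, mem_filter, mem_powersetCard] at hz
      obtain ⟨⟨hP, hPM⟩, hT, hTt⟩ := hz
      simp only at hP hPM hT hTt
      obtain ⟨ha, hb⟩ := h1 n P T hP hT
      rw [mem_coe, mem_biUnion]
      refine ⟨f P T, ?_, ?_⟩
      · rw [mem_filter, mem_biUnion]
        refine ⟨⟨(f P T).card, ?_, ha⟩, ?_⟩
        · rw [mem_range]
          rw [hTt] at hb
          omega
        · have := h3 P T
          rw [hTt] at this
          have h5 : (X P).card ≤ n / M := by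
            rw [Nat.le_div_iff_mul_le (by omega)]
            rw [mul_comm]
            exact hPM
          omega
      · rw [mem_biUnion]
        refine ⟨T.image ctr, ?_, ?_⟩
        · rw [mem_powersetCard]
          refine ⟨h2 P T, ?_⟩
          rw [card_image_of_injective _ ctr_inj, hTt]
        · rw [mem_image]
          refine ⟨P ∩ T.biUnion blk, ?_, rfl⟩
          rw [mem_powerset, biUnion_bat]
          exact inter_subset_right
    · rintro ⟨P, T⟩ hz ⟨P', T'⟩ hz' heq
      simp only [Prod.mk.injEq] at heq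
      obtain ⟨q1, q2, q3⟩ := heq
      have hT : T = T' := image_injective ctr_inj q2
      subst hT
      have hP : P = P' := by
        ext v
        by_cases hv : v ∈ T.biUnion blk
        · have := congrArg (fun S : Finset Cell => v ∈ S) q3
          simp only [mem_inter, hv, and_true, eq_iff_iff] at this
          exact this
        · rw [← h4 P T v hv, q1, h4 P' T v hv]
      subst hP
      rfl
  have e3 : tgt.card ≤ ∑ Q ∈ QQ, 2 ^ (n / M + 74 * t) := by
    refine card_biUnion_le.trans (sum_le_sum fun Q hQ => ?_)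
    rw [mem_filter] at hQ
    refine card_biUnion_le.trans ?_
    have h5 : ∀ E ∈ (X Q).powersetCard t,
        (((E.biUnion bat).powerset).image fun G => (Q, E, G)).card ≤ 2 ^ (25 * t) := by
      intro E hE
      rw [mem_powersetCard] at hE
      refine card_image_le.trans ?_
      rw [card_powerset]
      apply Nat.pow_le_pow_right (by norm_num)
      refine (card_biUnion_le_card_mul E bat 25 fun c _ => (card_bat c).le).trans ?_
      rw [hE.2, mul_comm]
    refine (sum_le_card_nsmul _ _ _ h5).trans ?_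
    rw [smul_eq_mul, card_powersetCard]
    have h6 : (X Q).card.choose t ≤ 2 ^ (n / M + 49 * t) :=
      (Nat.choose_le_two_pow _ _).trans (Nat.pow_le_pow_right (by norm_num) hQ.2)
    refine (Nat.mul_le_mul_right _ h6).trans ?_
    rw [← pow_add]
    apply Nat.pow_le_pow_right (by norm_num)
    omega
  have e4 : QQ.card ≤ ∑ m ∈ range (n + 25 * t + 1), a m := by
    refine (card_filter_le _ _).trans (card_biUnion_le.trans ?_)
    exact le_of_eq (sum_congr rfl fun m _ => rfl)
  rw [e1]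
  refine e2.trans (e3.trans ?_)
  rw [sum_const, smul_eq_mul, mul_comm]
  exact Nat.mul_le_mul_left _ e4

lemma mem_nb_of {T : Finset Cell} {v w : Cell} (hv : v ∉ T.biUnion nb)
    (h : w = v ∨ w ∈ ring v) : w ∉ T.biUnion blk := by
  intro hw
  rw [mem_biUnion] at hw
  obtain ⟨u, hu, hwu⟩ := hw
  apply hv
  rw [mem_biUnion]
  refine ⟨u, hu, ?_⟩
  rw [mem_blk] at hwu
  rw [mem_nb]
  rcases h with rfl | h
  · omega
  · rw [mem_ring] at h
    omega

lemma card_new {X : Finset Cell → Finset Cell}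
    (hX : ∀ (P Q : Finset Cell) (v : Cell), (∀ w, w = v ∨ w ∈ ring v → (w ∈ Q ↔ w ∈ P)) →
      v ∈ X Q → v ∈ X P)
    (P Q T : Finset Cell) (h4 : ∀ v, v ∉ T.biUnion blk → (v ∈ Q ↔ v ∈ P)) :
    (X Q).card ≤ (X P).card + 49 * T.card := by
  have h : X Q ⊆ X P ∪ T.biUnion nb := by
    intro v hv
    rw [mem_union]
    by_cases hn : v ∈ T.biUnion nb
    · exact Or.inr hn
    · left
      exact hX P Q v (fun w hw => h4 w (mem_nb_of hn hw)) hv
  refine (card_le_card h).trans ((card_union_le _ _).trans ?_)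
  apply Nat.add_le_add_left
  refine (card_biUnion_le_card_mul T nb 49 fun c _ => (card_nb c).le).trans ?_
  rw [mul_comm]

lemma agree_BB (P Q : Finset Cell) (v : Cell) (h : ∀ w, w = v ∨ w ∈ ring v → (w ∈ Q ↔ w ∈ P))
    (hv : v ∈ BB Q) : v ∈ BB P := by
  rw [mem_BB] at hv ⊢
  exact ⟨(h v (Or.inl rfl)).1 hv.1, fun w hw => (h w (Or.inr hw)).1 (hv.2 hw)⟩

lemma agree_SS (P Q : Finset Cell) (v : Cell) (h : ∀ w, w = v ∨ w ∈ ring v → (w ∈ Q ↔ w ∈ P))
    (hv : v ∈ SS Q) : v ∈ SS P := by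
  rw [mem_SS] at hv ⊢
  exact ⟨fun h0 => hv.1 ((h v (Or.inl rfl)).2 h0), fun w hw => (h w (Or.inr hw)).1 (hv.2 hw)⟩

lemma ring_ctr (u : Cell) : ring (ctr u) ⊆ blk u := by
  intro w hw
  rw [mem_ring] at hw
  unfold ctr at hw
  simp only at hw
  rw [mem_blk]
  omega

lemma ring_ctr_ne {u u' w : Cell} (hw : w ∈ ring (ctr u)) : ctr u' ≠ w := by
  rintro rfl
  rw [mem_ring] at hw
  unfold ctr at hw
  simp only at hw
  apply hw.1
  rw [Prod.mk.injEq]
  omega

lemma fillB_agree (P T : Finset Cell) (v : Cell) (hv : v ∉ T.biUnion blk) :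
    v ∈ fillB P T ↔ v ∈ P := by
  unfold fillB
  rw [mem_union]
  tauto

lemma fillS_agree (P T : Finset Cell) (v : Cell) (hv : v ∉ T.biUnion blk) :
    v ∈ fillS P T ↔ v ∈ P := by
  unfold fillS
  rw [mem_sdiff, mem_union]
  have : v ∉ T.image ctr := by
    intro h
    rw [mem_image] at h
    obtain ⟨u, hu, rfl⟩ := h
    exact hv (mem_biUnion.2 ⟨u, hu, ctr_mem u⟩)
  tauto

theorem cnt (hcn : S_CN) : S_CNT := by
  intro X hX M n t hM
  have hcu : ∀ T : Finset Cell, (T.biUnion blk).card ≤ 25 * T.card := fun T => by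
    refine (card_biUnion_le_card_mul T blk 25 fun c _ => (card_blk c).le).trans ?_
    rw [mul_comm]
  rcases hX with rfl | rfl
  · apply cnt_gen SS fillS _ _ _ fillS_agree M n t hM
    · intro n P T hP hT
      rw [mem_A0] at hP
      refine ⟨mem_A0.2 ⟨rfl, hcn.2.2.2 P T hP.2.1 hT, ?_⟩, ?_⟩
      · unfold fillS
        rw [mem_sdiff, mem_union]
        refine ⟨Or.inl hP.2.2, ?_⟩
        intro h
        rw [mem_image] at h
        obtain ⟨u, -, hu⟩ := h
        have := congrArg Prod.fst hu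
        unfold ctr at this
        simp only [Prod.fst_zero] at this
        omega
      · unfold fillS
        refine (card_le_card sdiff_subset).trans ((card_union_le _ _).trans ?_)
        rw [hP.1]
        exact Nat.add_le_add_left (hcu T) n
    · intro P T v hv
      rw [mem_image] at hv
      obtain ⟨u, hu, rfl⟩ := hv
      rw [mem_SS]
      unfold fillS
      refine ⟨fun h => (mem_sdiff.1 h).2 (mem_image_of_mem ctr hu), fun w hw => ?_⟩
      rw [mem_sdiff, mem_union]
      refine ⟨Or.inr (mem_biUnion.2 ⟨u, hu, ring_ctr u hw⟩), fun h => ?_⟩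
      rw [mem_image] at h
      obtain ⟨u', -, hu'⟩ := h
      exact ring_ctr_ne hw hu'
    · intro P T
      exact card_new agree_SS P _ T (fillS_agree P T)
  · apply cnt_gen BB fillB _ _ _ fillB_agree M n t hM
    · intro n P T hP hT
      rw [mem_A0] at hP
      refine ⟨mem_A0.2 ⟨rfl, hcn.2.2.1 P T hP.2.1 hT, ?_⟩, ?_⟩
      · unfold fillB
        rw [mem_union]
        exact Or.inl hP.2.2
      · unfold fillB
        refine (card_union_le _ _).trans ?_
        rw [hP.1]
        exact Nat.add_le_add_left (hcu T) n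
    · intro P T v hv
      rw [mem_image] at hv
      obtain ⟨u, hu, rfl⟩ := hv
      rw [mem_BB]
      unfold fillB
      refine ⟨mem_union_right _ (mem_biUnion.2 ⟨u, hu, ctr_mem u⟩), fun w hw => ?_⟩
      exact mem_union_right _ (mem_biUnion.2 ⟨u, hu, ring_ctr u hw⟩)
    · intro P T
      exact card_new agree_BB P _ T (fillB_agree P T)

end Pool.Agent.N744.AP
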